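import Pool.Agent.X298.HC.RMain

/-!
# Tate's form of the conjecture of Birch and Swinnerton-Dyer for constant families over `K(V)`

`V` is an arbitrary smooth projective variety of dimension `d ≥ 1` over a number field `K` (for example
`K = ℚ`), `k = K(V)` its function field, a finitely generated field, and `𝒴` a model of `V` over an open
part of the ring of integers of `K`, `dim 𝒴 = d + 1`.  `Y` runs through the smooth projective varieties
over `K` whose Picard variety `A = Pic⁰_Y` has potential complex multiplication, and `X = Y ×_K k`, so
that `Pic⁰_{X/k} = A ×_K k`.  The group `A(k)` is `A(K) ⊕ Hom_K(Alb V, A)` up to torsion, and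
`Φ₁(s) = L(H¹(Y), s - d) · (Φ₁(s) / L(H¹(Y), s - d))`, where `s = d + 1` corresponds to the central point
`1` of `L(H¹(Y), s)`.  So the conjecture for `X/k` is the conjecture for `A/K` (the rank of `A(K)`
is the order of `L(H¹(Y), s)` at `s = 1`) and the relative conjecture: the order of
`Φ₁(s) / L(H¹(Y), s - d)` at `s = dim 𝒴` is `rank A(k) - rank A(K) = rank Hom(Alb V, A)`.  This is
the question here; the quotient is given by its Euler product (`IsRelPhi`, `relPhi`).

Let `B` be a factor of `Alb V` with potential complex multiplication, for example the largest one (then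
`Hom(Alb V, A) = Hom(B, A)`), or `B = 0`.  The Frobenius elements act on the parts of `H^{2d-1}(V)` and
`H¹(Y)` for `B` and `A` with the traces `q_v^{d-1/2} Tr κ`, `q_v^{1/2} Tr ρ` for virtual representations
`κ` and `ρ` of the Weil group of `K` (integral combinations of representations `Ind ψ N^{-iτ}`, `ψ` a
Hecke character of a finite extension), by the theorem of Shimura, Taniyama and Weil, and the
intertwining number `κ.inter ρ` is the rank of `Hom(B, A)`.

The number `R` (`RestMoment`) is `(b₁(V) - 2 dim B)²`, or the order of the pole of the `L`-function of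
the tensor square of the rest of `H^{2d-1}(V)` at the edge (the rank of `End(B')`, `Alb V` isogenous
to `B × B'`, by Tate's conjecture).

The definitions are in `Pool.Agent.X298.HC.RDefs`, `Pool.Agent.X298.HC.KDefs`,
`Pool.Agent.X298.HC.Defs` (`HeckeChar`: unitary Hecke characters), `Pool.Agent.X298.HC.BC`,
`Pool.Agent.X298.HC.PDefs`, `Pool.Agent.X298.HC.MDefs` (`Virt`: virtual representations, `Virt.inter`:
intertwining numbers) and `Pool.Agent.W353.EF.Defs`, `Pool.Agent.W353.EH.Defs`.
-/

set_option autoImplicit false

namespace Pool.Agent.Results.MP_9faec4_nt.ConstantFamilies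

open NumberField IsDedekindDomain Filter Topology Polynomial Pool.Agent.X298.HC

/-- **The relative conjecture of Tate for constant families with potentially CM Picard variety.**  Let `V`
be a projective variety of dimension `d ≥ 1` over a number field `K`, with Betti numbers `N b`, let `κ`
be given by a part of `H^{2d-1}(V)`, for example `κ = 0`, and let `R` be as above.

0. For `Y` as above `0 ≤ ρ.inter ρ ≤ b₁(Y)²`.

1. (`ConstGram`)  Let `Y_k` be finitely many such varieties, `c_k` real, `h_k = κ.inter ρ_k` and
`q_kl = ρ_k.inter ρ_l`.  For the orders `m_k` of `Φ₁(s) / L(H¹(Y_k), s - d)` at `s = d + 1`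
`(∑ c_k (m_k - h_k))² ≤ R ∑ c_k c_l q_kl`, if there are continuations; without any continuation the
same holds, up to `η`, for the quotients `log |Φ₁/L| / log ε` at `s = d + 1 + ε`, for small `ε > 0`.

2. (`ConstExceptional`)  For every `r` there are at most `r R` exceptional varieties `Y_s` such that for
all `Y` with `ρ.inter ρ ≤ r` (the rank of `End(A)`) and `ρ.inter ρ_s = 0` (the rank of
`Hom(A, Pic⁰ Y_s)`) for all `s`, the order of `Φ₁(s) / L(H¹(Y), s - d)` at `s = d + 1` is
`κ.inter ρ`, and without any continuation the quotient differs from `κ.inter ρ` by less than one for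
arbitrarily small `ε > 0`.

3. (`ConstMonomial`)  If all `L(H^{2d-1}(V) ⊗ π, s)`, `π` monomial and irreducible, have
continuations to the edge point `s = d + 1/2`, then there is a set of at most `R` representations `π`
such that this holds for all `Y` with `ρ` composed of monomial irreducible representations not in the
set (no bound for the number of these), and the quotients converge to `κ.inter ρ`. -/
theorem result {K : Type} [Field K] [NumberField K] {n : ℕ}
    (V : Set (MvPolynomial (Fin n) (𝓞 K))) (d : ℕ) (N : ℕ → ℕ) (R : ℕ) (κ : Virt K) (hd : 1 ≤ d)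
    (hR : RestMoment V d (2 * d - 1) (N (2 * d - 1)) κ R) :
    (∀ D : ConstData V d N, 0 ≤ D.ρ.inter D.ρ ∧ D.ρ.inter D.ρ ≤ (D.M₁ : ℤ) ^ 2) ∧
    ConstGram V d N R κ ∧
    (∀ r : ℕ, ConstExceptional V d N R κ r) ∧
    (ContinuationsTop V d N → ConstMonomial V d N R κ) :=
  ⟨fun D => ⟨inter_self_nonneg D.ρ, pot1_norm D.pot⟩, const_gram hd hR,
    fun r => const_exceptional hd hR r, fun H => const_monomial hd hR H⟩

end Pool.Agent.Results.MP_9faec4_nt.ConstantFamilies
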