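import Pool.Agent.X298.HC.FMain

/-!
# A fixed abelian variety over all function fields of varieties with potentially CM Albanese variety

`Y` is an arbitrary smooth projective variety of dimension `e ≥ 1` over a number field `K` (for example an
elliptic curve over `ℚ`), `A = Pic⁰_Y`, and `V` runs through the smooth projective varieties over `K` of
any dimension `d ≥ 1` whose Albanese variety has potential complex multiplication (for example all those
dominated by products of Fermat curves).  Then `k = K(V)` is a finitely generated field, `X = Y ×_K k` is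
a variety over `k` with `Pic⁰_{X/k} = A ×_K k`, and `𝒴`, a model of `V`, has dimension `d + 1`.
The group `A(k)` is `A(K) ⊕ Hom_K(Alb V, A)` up to torsion, and
`Φ₁(s) = L(H¹(Y), s - d) · (Φ₁(s) / L(H¹(Y), s - d))`.  So Tate's conjecture for `X/k` is the conjecture
for `A/K` together with its relative form, for the growth of the rank in the extension `k/K`: the order of
`Φ₁(s) / L(H¹(Y), s - d)` at `s = dim 𝒴` is `rank A(k) - rank A(K) = rank Hom(Alb V, A)`.  The quotient
is given by its Euler product (`IsRelPhi`, `relPhi`).  (For a hyperelliptic curve `V : u² = f(t)` it is,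
up to the factor `L(H¹(Y), s)`, which is holomorphic and not zero near `s = 2`, the function `Φ₁` itself
for the quadratic twist by `f` of the constant family `Y` over the field `K(t)`.)

Let `B` be a factor of `A` with potential complex multiplication, for example the largest one (then
`Hom(Alb V, A) = Hom(Alb V, B)` up to isogeny), or `B = 0`.  The Frobenius elements act on the parts of
`H¹(Y)` and `H^{2d-1}(V)` with the traces `q_v^{1/2} Tr κ`, `q_v^{d-1/2} Tr ρ` for virtual
representations `κ` and `ρ` of the Weil group of `K`, and the intertwining number `κ.inter ρ` is the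
rank of `Hom(Alb V, B)`.

The number `R` (`RestMoment`) is `(b₁(Y) - 2 dim B)²`, or the order of the pole of
`L(H¹(B') ⊗ H¹(B'), s)` at `s = 2`, `A` isogenous to `B × B'`, which should be the rank of
`End(B')`.

The definitions are in `Pool.Agent.X298.HC.FDefs`, `Pool.Agent.X298.HC.RDefs`,
`Pool.Agent.X298.HC.KDefs`, `Pool.Agent.X298.HC.Defs` (`HeckeChar`: unitary Hecke characters),
`Pool.Agent.X298.HC.BC`, `Pool.Agent.X298.HC.PDefs`, `Pool.Agent.X298.HC.MDefs` (`Virt`: virtual
representations, `Virt.inter`: intertwining numbers) and `Pool.Agent.W353.EF.Defs`,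
`Pool.Agent.W353.EH.Defs`.
-/

set_option autoImplicit false

namespace Pool.Agent.Results.MP_9faec4_nt.GrowthInFunctionFields

open NumberField IsDedekindDomain Filter Topology Polynomial Pool.Agent.X298.HC

/-- **The relative conjecture of Tate for a fixed abelian variety over function fields `K(V)`.**  Let `Y`
be a projective variety of dimension `e ≥ 1` over a number field `K`, with first Betti number `M₁`, let
`κ` be given by a part of `H¹(Y)`, for example `κ = 0`, and let `R` be as above.

0. For `V` as above `0 ≤ ρ.inter ρ ≤ b_{2d-1}(V)²`.

1. (`BaseGram`)  Let `V_k` be finitely many such varieties, `c_k` real, `h_k = κ.inter ρ_k` and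
`q_kl = ρ_k.inter ρ_l`.  For the orders `m_k` of `Φ₁(s) / L(H¹(Y), s - d_k)` for `Y ×_K K(V_k)` at
`s = d_k + 1`: `(∑ c_k (m_k - h_k))² ≤ R ∑ c_k c_l q_kl`, if there are continuations; without any
continuation the same holds, up to `η`, for the quotients `log |Φ₁/L| / log ε` at
`s = d_k + 1 + ε`, for all small `ε > 0`.

2. (`BaseExceptional`)  For every `r` there are at most `r R` exceptional varieties `V_s` such that for
all `V` (of any dimension) with `ρ.inter ρ ≤ r` (the rank of `End(Alb V)`) and `ρ.inter ρ_s = 0` (the
rank of `Hom(Alb V, Alb V_s)`) for all `s`, the order of `Φ₁(s) / L(H¹(Y), s - d)` at `s = d + 1` is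
`κ.inter ρ`, and without any continuation the quotient differs from `κ.inter ρ` by less than one for
arbitrarily small `ε > 0`.  In particular, if `A` has no factor with potential complex multiplication
(`κ = 0`), there is no growth of the analytic rank in `K(V)/K` outside the exceptions.

3. (`BaseMonomial`)  If all `L(H¹(Y) ⊗ π, s)`, `π` monomial and irreducible, have continuations to
`s = 3/2`, then there is a set of at most `R` representations `π` such that this holds for all `V` with
`ρ` composed of monomial irreducible representations not in the set (no bound for the number of these),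
and the quotients converge to `κ.inter ρ`. -/
theorem result {K : Type} [Field K] [NumberField K] {n : ℕ}
    (Y : Set (MvPolynomial (Fin n) (𝓞 K))) (e M₁ R : ℕ) (κ : Virt K) (he : 1 ≤ e)
    (hR : RestMoment Y e 1 M₁ κ R) :
    (∀ D : BaseData Y e M₁, 0 ≤ D.ρ.inter D.ρ ∧
      D.ρ.inter D.ρ ≤ (D.N (2 * D.d - 1) : ℤ) ^ 2) ∧
    BaseGram Y e M₁ R κ ∧
    (∀ r : ℕ, BaseExceptional Y e M₁ R κ r) ∧
    (Continuations1 Y e M₁ → BaseMonomial Y e M₁ R κ) :=
  ⟨fun D => ⟨inter_self_nonneg D.ρ, potTop_norm D.pos D.pot⟩, base_gram he hR,
    fun r => base_exceptional he hR r, fun H => base_monomial he hR H⟩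

end Pool.Agent.Results.MP_9faec4_nt.GrowthInFunctionFields
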