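import Pool.Agent.X278.PV.Mult

/-!
# Pencils of hypersurface sections of arbitrary projective varieties over the `ℓ`-power Galois
extensions of `k(t)`
-/

set_option autoImplicit false
set_option linter.all false
set_option maxHeartbeats 4000000

open Polynomial FF Module Pool.Agent.W343.BSD Pool.Agent.Y701.PE
open scoped LinearAlgebra.Projectivization

namespace Pool.Agent.Results.MP_9faec4_nt.PencilsOnVarieties

section defs

/-- `I` is a set of forms, and `F`, `G` are forms of degree `d`. -/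
structure IsPencil {k : Type} [Field k] {n : ℕ} (d : ℕ) (I : Set (MvPolynomial (Fin (n + 1)) k))
    (F G : MvPolynomial (Fin (n + 1)) k) : Prop where
  variety : ∀ f ∈ I, ∃ j, f.IsHomogeneous j
  pencil : F.IsHomogeneous d ∧ G.IsHomogeneous d

/-- The product `Λ(T) = ∏ P_w(T ^ (deg w))⁻¹` over the places `w` of `L` (over the field of constants
`k`), where `P_w(T) = exp (-∑ a_w(m) T ^ m / m)` and `∑ c_i Q ^ i - a_w(m)` is the number of the points of
the subvariety of `Y` (the variety defined by `I`) defined by `F = t(w) G` (by `G = 0` if `t(w) = ∞`) over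
the extension of degree `m`, with `Q` elements, of the residue field of `w`. So
`P_w(T) = Z_w(T) ∏ (1 - q_w ^ i T) ^ c_i`, where `Z_w` is the zeta function of this subvariety. -/
abbrev IsL (k : Type) {L : Type} [Field k] [Field L] [Algebra k L] {n : ℕ} (N : ℕ) (c : ℕ → ℕ)
    (t : L) (I : Set (MvPolynomial (Fin (n + 1)) k)) (F G : MvPolynomial (Fin (n + 1)) k)
    (Λ : PowerSeries ℤ) : Prop :=
  IsLFunction k (fun Q => ∑ i ∈ Finset.range N, (c i : ℤ) * (Q : ℤ) ^ i) t I F G Λ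

/-- `P_v`, as in the definition of `IsL`. -/
abbrev IsP {k L : Type} [Field k] [Field L] [Algebra k L] {n : ℕ} (N : ℕ) (c : ℕ → ℕ)
    (v : Place k L) (t : L) (I : Set (MvPolynomial (Fin (n + 1)) k))
    (F G : MvPolynomial (Fin (n + 1)) k) (P : PowerSeries ℤ) : Prop :=
  IsNumerator (fun Q => ∑ i ∈ Finset.range N, (c i : ℤ) * (Q : ℤ) ^ i) v t I F G P

/-- The multiplicity modulo `ℓ` of the zero `x` of `A(T ^ d)`. -/
noncomputable def mult (ℓ : ℕ) [Fact ℓ.Prime] (x : ZMod ℓ) (d : ℕ) (A : ℤ[X]) : ℕ :=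
  ((expand ℤ d A).map (Int.castRingHom (ZMod ℓ))).rootMultiplicity x

/-- `Z = A / C` with integral polynomials `A`, `C` with the constant term one, and `m` is the
multiplicity modulo `ℓ` of the zero `x` of `A(T ^ d)` minus that of `C(T ^ d)`. -/
def IsMult (ℓ : ℕ) [Fact ℓ.Prime] (x : ZMod ℓ) (d : ℕ) (Z : PowerSeries ℤ) (m : ℤ) : Prop :=
  ∃ A C : ℤ[X], C.coeff 0 = 1 ∧ Z * (C : PowerSeries ℤ) = (A : PowerSeries ℤ) ∧
    (mult ℓ x d A : ℤ) - mult ℓ x d C = m

/-- The multiplicity modulo `ℓ` of the zero `q ^ (-b)` of `∏ ((1 - q ^ i T) (1 - q ^ (i + 1) T)) ^ c_i`. -/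
def triv (ℓ : ℕ) (q N : ℕ) (c : ℕ → ℕ) (b : ℕ) : ℕ :=
  ∑ i ∈ Finset.range N, c i * ((if ((q : ℕ) : ZMod ℓ) ^ i = (q : ZMod ℓ) ^ b then 1 else 0) +
    if ((q : ℕ) : ZMod ℓ) ^ (i + 1) = (q : ZMod ℓ) ^ b then 1 else 0)

/-- The order of vanishing of the polynomial `R` at `1 / Q`. -/
noncomputable def order (Q : ℕ) (R : ℤ[X]) : ℕ :=
  (R.map (Int.castRingHom ℚ)).rootMultiplicity ((Q : ℚ)⁻¹)

/-- The place `w` of `L` lies over the place `v` of `K`, with the ramification index `e`. The fields of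
constants `k` and `k'` may be different. -/
def LiesOver {k K k' L : Type} [Field k] [Field K] [Algebra k K] [Field k'] [Field L]
    [Algebra k' L] [Algebra K L] (w : Place k' L) (v : Place k K) (e : ℕ) : Prop :=
  0 < e ∧ ∀ f : K, w.ord (algebraMap K L f) = e * v.ord f

/-- `L` is a Galois extension of `k(t)` of degree a power of `ℓ` with field of constants `k'`; the
places over `v` have the ramification index `e v`, which is `1` outside the finite set `B`. -/
structure IsLayer (k k' L : Type) [Field k] [Field k'] [Field L] [Algebra k' L] [Algebra k k']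
    [Algebra (RatFunc k) L] (ℓ : ℕ) (e : Place k (RatFunc k) → ℕ)
    (B : Finset (Place k (RatFunc k))) : Prop where
  curve : IsCurveField k' L
  galois : IsGalois (RatFunc k) L
  power : ∃ s : ℕ, finrank (RatFunc k) L = ℓ ^ s
  index : ∀ (v : Place k (RatFunc k)) (w : Place k' L) (n : ℕ), LiesOver w v n → n = e v
  unramified : ∀ v, v ∉ B → e v = 1

/-- The multiplicity modulo `ℓ` of the zero `q ^ (-b)` of `Λ_L(T ^ [k' : k])` predicted by the data over
`k`: `m_Y`, `m_Z` belong to the zeta functions of the variety and of the base locus, and `m_v` to the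
fibres over the ramified places. -/
noncomputable def predicted (ℓ q N : ℕ) (c : ℕ → ℕ) (b n : ℕ) {V : Type} (e : V → ℕ) (B : Finset V)
    (mY mZ : ℤ) (m : V → ℤ) : ℤ :=
  -(n : ℤ) * (mY + mZ + triv ℓ q N c b) + ∑ v ∈ B, ((n : ℤ) - (n / e v : ℕ)) * m v

/-- The zeta function of the variety is `P₁(T) P₁(q T) / ((1 - T) P₂(T) (1 - q ^ 2 T))`, as for smooth
projective surfaces, with integral polynomials `P₁`, `P₂` with the constant term one. -/
structure IsSurface (q : ℤ) (P₁ P₂ : ℤ[X]) (ZY : PowerSeries ℤ) : Prop where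
  zeta : ZY * (((1 - X) * P₂ * (1 - C (q ^ 2) * X) : ℤ[X]) : PowerSeries ℤ) =
    ((P₁ * P₁.comp (C q * X) : ℤ[X]) : PowerSeries ℤ)
  one : P₁.coeff 0 = 1
  two : P₂.coeff 0 = 1

end defs

open Pool.Agent.X278.PV

theorem general {k : Type} [Field k] [Finite k] {n : ℕ}
    {I : Set (MvPolynomial (Fin (n + 1)) k)} {F G : MvPolynomial (Fin (n + 1)) k}
    {N : ℕ} {c : ℕ → ℕ} {Λ ZY ZB : PowerSeries ℤ}
    (hΛ : IsL k N c (RatFunc.X : RatFunc k) I F G Λ) (hY : IsZeta I ZY)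
    (hZ : IsZeta (I ∪ {F, G}) ZB) (ℓ : ℕ) [hℓ : Fact ℓ.Prime] (hℓk : (ℓ : k) ≠ 0) {k' L : Type}
    [Field k'] [Finite k'] [Field L]
    [Algebra k' L] [Algebra k k'] [Algebra k L] [Algebra (RatFunc k) L]
    [IsScalarTower k (RatFunc k) L] [IsScalarTower k k' L] {e : Place k (RatFunc k) → ℕ}
    {B : Finset (Place k (RatFunc k))} (hlay : IsLayer k k' L ℓ e B)
    {Λ' : PowerSeries ℤ} (hΛ' : IsL k' N c (algebraMap (RatFunc k) L RatFunc.X)
          (MvPolynomial.map (algebraMap k k') '' I) (MvPolynomial.map (algebraMap k k') F)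
          (MvPolynomial.map (algebraMap k k') G) Λ')
    {P : Place k (RatFunc k) → PowerSeries ℤ}
    (hP : ∀ v ∈ B, IsP N c v (RatFunc.X : RatFunc k) I F G (P v))
    {b : ℕ} {mY mZ : ℤ} {m : Place k (RatFunc k) → ℤ}
    (hmY : IsMult ℓ (((Nat.card k : ℕ) : ZMod ℓ) ^ b)⁻¹ 1 ZY mY)
    (hmZ : IsMult ℓ (((Nat.card k : ℕ) : ZMod ℓ) * (((Nat.card k : ℕ) : ZMod ℓ) ^ b)⁻¹) 1 ZB mZ)
    (hm : ∀ v ∈ B, IsMult ℓ (((Nat.card k : ℕ) : ZMod ℓ) ^ b)⁻¹ (S.deg v) (P v) (m v))
    {W R : ℤ[X]} (hW : W.coeff 0 = 1) (hR : Λ' * (W : PowerSeries ℤ) = (R : PowerSeries ℤ)) :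
    (mult ℓ (((Nat.card k : ℕ) : ZMod ℓ) ^ b)⁻¹ (finrank k k') R : ℤ) -
            mult ℓ (((Nat.card k : ℕ) : ZMod ℓ) ^ b)⁻¹ (finrank k k') W =
            predicted ℓ (Nat.card k) N c b (finrank (RatFunc k) L) e B mY mZ m ∧
          finrank k k' * order (Nat.card k' ^ b) R ≤
            mult ℓ (((Nat.card k : ℕ) : ZMod ℓ) ^ b)⁻¹ (finrank k k') R := by
  classical
  set q : ℤ := (Nat.card k : ℤ) with hq
  have hex := exact_var hΛ hY hZ
  rw [← triv_coe] at hex
  have hq0 := card_ne_zero_mod (k := k) hℓk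
  have hqc : ((q : ℤ) : ZMod ℓ) = ((Nat.card k : ℕ) : ZMod ℓ) := by
    rw [hq]; push_cast; rfl
  have hq0' : ((q : ℤ) : ZMod ℓ) ≠ 0 := by rw [hqc]; exact hq0
  set x : ZMod ℓ := (((Nat.card k : ℕ) : ZMod ℓ) ^ b)⁻¹ with hx
  have hKc : IsCurveField k (RatFunc k) :=
    { essFiniteType := (inferInstance : FF.IsFF k (RatFunc k)).1
      trdeg_eq_one := (inferInstance : FF.IsFF k (RatFunc k)).2
      algClosed := Pool.Agent.W309.RF.const_rat }
  have hmlt : ∀ (x : ZMod ℓ) (d : ℕ) (A : ℤ[X]), mult ℓ x d A = mlt ℓ x d A := fun _ _ _ => rfl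
  obtain ⟨AY, CY, hCY, hYe, rfl⟩ := hmY
  obtain ⟨AB, CB, hCB, hBe, rfl⟩ := hmZ
  have hZYc : PowerSeries.constantCoeff ZY = 1 := by
    obtain ⟨y, -, h⟩ := hY
    exact h.1
  have hZBc : PowerSeries.constantCoeff ZB = 1 := by
    obtain ⟨y, -, h⟩ := hZ
    exact h.1
  have hAY := num_zero hZYc hCY hYe
  have hAB := num_zero hZBc hCB hBe
  -- the quotient over the base field
  set V : ℤ[X] := AY * AB.comp (C q * X) * trivPoly q N c with hV
  set U : ℤ[X] := CY * CB.comp (C q * X) with hU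
  have hV0 : V.coeff 0 = 1 := mul_zero' (mul_zero' hAY (comp_zero q hAB)) (triv_zero q N c)
  have hUV : Λ * (V : PowerSeries ℤ) = (U : PowerSeries ℤ) := by
    have h1 := congrArg (PowerSeries.rescale q) hBe
    rw [map_mul, rescale_coe, rescale_coe] at h1
    rw [hV, hU, Polynomial.coe_mul, Polynomial.coe_mul, Polynomial.coe_mul, ← h1, ← hYe]
    linear_combination ((CY : PowerSeries ℤ) * ((CB.comp (C q * X) : ℤ[X]) : PowerSeries ℤ)) * hex
  -- the ramified places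
  have hm' : ∀ v : Place k (RatFunc k), ∃ A C : ℤ[X], v ∈ B → C.coeff 0 = 1 ∧
      P v * (C : PowerSeries ℤ) = (A : PowerSeries ℤ) ∧
      (mult ℓ x (S.deg v) A : ℤ) - mult ℓ x (S.deg v) C = m v := by
    intro v
    by_cases hv : v ∈ B
    · obtain ⟨A, C, h1, h2, h3⟩ := hm v hv
      exact ⟨A, C, fun _ => ⟨h1, h2, h3⟩⟩
    · exact ⟨0, 0, fun h => absurd h hv⟩
  choose A C' hAC using hm'
  obtain ⟨h1, h2⟩ := pencil_eq hKc hlay.curve hℓk hlay.galois hlay.power hlay.index B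
      hlay.unramified _ (RatFunc.X : RatFunc k) hΛ hΛ' hV0 hUV
      (fun v hv => ⟨hP v hv, (hAC v hv).2.1, (hAC v hv).1⟩) b R W hW hR
  refine ⟨?_, ?_⟩
  · rw [← hx] at h1
    have e1 : mlt ℓ x 1 V = mlt ℓ x 1 AY + mlt ℓ (((Nat.card k : ℕ) : ZMod ℓ) * x) 1 AB +
        triv ℓ (Nat.card k) N c b := by
      rw [hV, mlt_mul x one_ne_zero (mul_zero' hAY (comp_zero q hAB)) (triv_zero q N c),
        mlt_mul x one_ne_zero hAY (comp_zero q hAB), mlt_comp x hq0', mlt_triv, hqc]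
      congr 1
      unfold triv
      refine Finset.sum_congr rfl fun i _ => ?_
      have h3 : ∀ j : ℕ, (((Nat.card k : ℕ) : ZMod ℓ) ^ j * x = 1) =
          (((Nat.card k : ℕ) : ZMod ℓ) ^ j = ((Nat.card k : ℕ) : ZMod ℓ) ^ b) := by
        intro j
        rw [hx, eq_iff_iff]
        exact mul_inv_eq_one₀ (pow_ne_zero b hq0)
      simp only [h3]
    have e2 : mlt ℓ x 1 U = mlt ℓ x 1 CY + mlt ℓ (((Nat.card k : ℕ) : ZMod ℓ) * x) 1 CB := by
      rw [hU, mlt_mul x one_ne_zero hCY (comp_zero q hCB), mlt_comp x hq0', hqc]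
    rw [e1, e2] at h1
    have h3 := congrArg (Nat.cast : ℕ → ℤ) h1
    push_cast at h3
    unfold predicted
    simp only [hmlt]
    have hle : ∀ v, finrank (RatFunc k) L / e v ≤ finrank (RatFunc k) L :=
      fun v => Nat.div_le_self _ _
    have e3 : ∀ D : Place k (RatFunc k) → ℤ[X], ∑ v ∈ B, ((finrank (RatFunc k) L -
        finrank (RatFunc k) L / e v : ℕ) : ℤ) * (mlt ℓ x (S.deg v) (D v) : ℤ) =
        ∑ v ∈ B, ((finrank (RatFunc k) L : ℤ) - (finrank (RatFunc k) L / e v : ℕ)) *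
          (mlt ℓ x (S.deg v) (D v) : ℤ) := by
      intro D
      refine Finset.sum_congr rfl fun v _ => ?_
      rw [Nat.cast_sub (hle v)]
    have e4 : ∑ v ∈ B, ((finrank (RatFunc k) L : ℤ) - (finrank (RatFunc k) L / e v : ℕ)) * m v =
        ∑ v ∈ B, ((finrank (RatFunc k) L : ℤ) - (finrank (RatFunc k) L / e v : ℕ)) *
          (mlt ℓ x (S.deg v) (A v) : ℤ) -
        ∑ v ∈ B, ((finrank (RatFunc k) L : ℤ) - (finrank (RatFunc k) L / e v : ℕ)) *
          (mlt ℓ x (S.deg v) (C' v) : ℤ) := by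
      rw [← Finset.sum_sub_distrib]
      refine Finset.sum_congr rfl fun v hv => ?_
      rw [← (hAC v hv).2.2]
      simp only [hmlt]
      ring
    have h4 := e3 A
    have h5 := e3 C'
    push_cast at h4 h5
    rw [e4]
    rw [h4, h5] at h3
    push_cast
    linear_combination h3
  · exact h2 _ rfl


theorem mult_linear {ℓ : ℕ} [Fact ℓ.Prime] (x : ZMod ℓ) (u : ℤ) :
    mult ℓ x 1 (1 - C u * X) = if (u : ZMod ℓ) * x = 1 then 1 else 0 := mlt_linear x u

theorem surface {k : Type} [Field k] [Finite k] {n : ℕ}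
    {I : Set (MvPolynomial (Fin (n + 1)) k)} {F G : MvPolynomial (Fin (n + 1)) k}
    {N : ℕ} {c : ℕ → ℕ} {Λ ZY ZB : PowerSeries ℤ} (hN : N = 2) (hc : ∀ i, i < 2 → c i = 1)
    (hΛ : IsL k N c (RatFunc.X : RatFunc k) I F G Λ) (hY : IsZeta I ZY)
    (hZ : IsZeta (I ∪ {F, G}) ZB) (ℓ : ℕ) [hℓ : Fact ℓ.Prime] (hℓk : (ℓ : k) ≠ 0) {k' L : Type}
    [Field k'] [Finite k'] [Field L]
    [Algebra k' L] [Algebra k k'] [Algebra k L] [Algebra (RatFunc k) L]
    [IsScalarTower k (RatFunc k) L] [IsScalarTower k k' L] {e : Place k (RatFunc k) → ℕ}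
    {B : Finset (Place k (RatFunc k))} (hlay : IsLayer k k' L ℓ e B)
    {Λ' : PowerSeries ℤ} (hΛ' : IsL k' N c (algebraMap (RatFunc k) L RatFunc.X)
          (MvPolynomial.map (algebraMap k k') '' I) (MvPolynomial.map (algebraMap k k') F)
          (MvPolynomial.map (algebraMap k k') G) Λ')
    {P : Place k (RatFunc k) → PowerSeries ℤ}
    (hP : ∀ v ∈ B, IsP N c v (RatFunc.X : RatFunc k) I F G (P v))
    {P₁ P₂ : ℤ[X]} (hS : IsSurface (Nat.card k : ℤ) P₁ P₂ ZY) {d₀ : ℕ} (hd₀ : ¬ ℓ ∣ d₀)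
    (hB : ZB * ((1 - X ^ d₀ : ℤ[X]) : PowerSeries ℤ) = 1)
    (h2 : mult ℓ (((Nat.card k : ℕ) : ZMod ℓ))⁻¹ 1 P₂ = 1)
    (h1 : mult ℓ (((Nat.card k : ℕ) : ZMod ℓ))⁻¹ 1 P₁ = 0) (h1' : mult ℓ 1 1 P₁ = 0)
    (hv : ∀ v ∈ B, e v ≠ 1 → ∃ A C : ℤ[X], C.coeff 0 = 1 ∧
      P v * (C : PowerSeries ℤ) = (A : PowerSeries ℤ) ∧
      mult ℓ (((Nat.card k : ℕ) : ZMod ℓ))⁻¹ (S.deg v) A = 0)
    (hv' : ∀ v ∈ B, ∃ A C : ℤ[X], C.coeff 0 = 1 ∧ P v * (C : PowerSeries ℤ) = (A : PowerSeries ℤ))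
    {W R : ℤ[X]} (hW : W.coeff 0 = 1) (hR : Λ' * (W : PowerSeries ℤ) = (R : PowerSeries ℤ))
    (hW0 : mult ℓ (((Nat.card k : ℕ) : ZMod ℓ))⁻¹ (finrank k k') W = 0) :
    mult ℓ (((Nat.card k : ℕ) : ZMod ℓ))⁻¹ (finrank k k') R = 0 ∧ order (Nat.card k') R = 0 := by
  classical
  subst hN
  have hq0 := card_ne_zero_mod (k := k) hℓk
  have hmlt : ∀ (x : ZMod ℓ) (d : ℕ) (A : ℤ[X]), mult ℓ x d A = mlt ℓ x d A := fun _ _ _ => rfl
  set qq : ZMod ℓ := ((Nat.card k : ℕ) : ZMod ℓ) with hqq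
  have hqc : (((Nat.card k : ℕ) : ℤ) : ZMod ℓ) = qq := by rw [hqq]; push_cast; rfl
  have hq0' : (((Nat.card k : ℕ) : ℤ) : ZMod ℓ) ≠ 0 := by rw [hqc]; exact hq0
  have hx : (qq ^ 1)⁻¹ = qq⁻¹ := by rw [pow_one]
  have hx1 : qq * (qq ^ 1)⁻¹ = 1 := by rw [pow_one, mul_inv_cancel₀ hq0]
  have hd1 : d₀ ≠ 0 := by
    rintro rfl
    exact hd₀ (dvd_zero _)
  -- the surface
  have hmY : IsMult ℓ (qq ^ 1)⁻¹ 1 ZY (-(1 + 2 * (if qq = 1 then 1 else 0))) := by
    refine ⟨_, _, ?_, hS.zeta, ?_⟩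
    · have e1 : (1 - X : ℤ[X]).coeff 0 = 1 := by simp
      exact mul_zero' (mul_zero' e1 hS.two) (lin_zero _)
    · have e1 : (1 - X : ℤ[X]).coeff 0 = 1 := by simp
      rw [hx, hmlt, hmlt, mlt_mul _ one_ne_zero hS.one (comp_zero _ hS.one), mlt_comp _ hq0',
        mlt_mul _ one_ne_zero (mul_zero' e1 hS.two) (lin_zero _),
        mlt_mul _ one_ne_zero e1 hS.two, mlt_linear, hqc, mul_inv_cancel₀ hq0]
      have e2 : (1 - X : ℤ[X]) = 1 - C 1 * X := by rw [C_1, one_mul]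
      rw [e2, mlt_linear, ← hmlt, ← hmlt, ← hmlt, h1, h1', h2]
      push_cast
      rw [one_mul, ← hqq]
      have e3 : (qq⁻¹ = 1) = (qq = 1) := by rw [eq_iff_iff, inv_eq_one]
      have e4 : (qq ^ 2 * qq⁻¹ = 1) = (qq = 1) := by
        rw [sq, mul_assoc, mul_inv_cancel₀ hq0, mul_one]
      simp only [e3, e4]
      split_ifs <;> norm_num
  -- the base
  have hmZ : IsMult ℓ (qq * (qq ^ 1)⁻¹) 1 ZB (-1) := by
    refine ⟨1, 1 - X ^ d₀, ?_, ?_, ?_⟩
    · simp [hd1.symm]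
    · rw [hB, Polynomial.coe_one]
    · rw [hx1, hmlt, hmlt, mlt_one]
      unfold mlt
      rw [expand_one]
      have e1 := Pool.Agent.Y701.QG.rm_one_sub (ℓ := ℓ) (q := 1) one_ne_zero hd1
      have e2 : (1 - X ^ d₀ : ℤ[X]).map (Int.castRingHom (ZMod ℓ)) =
          (1 - C (1 ^ d₀) * X ^ d₀ : (ZMod ℓ)[X]) := by
        simp
      rw [e2]
      rw [inv_one] at e1
      rw [e1, padicValNat.eq_zero_of_not_dvd hd₀, pow_zero]
      norm_num
  -- the places
  have hch : ∀ v : Place k (RatFunc k), ∃ A C : ℤ[X], v ∈ B → C.coeff 0 = 1 ∧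
      P v * (C : PowerSeries ℤ) = (A : PowerSeries ℤ) ∧
      (e v ≠ 1 → mult ℓ qq⁻¹ (S.deg v) A = 0) := by
    intro v
    by_cases hvB : v ∈ B
    · by_cases he : e v = 1
      · obtain ⟨A, C, g1, g2⟩ := hv' v hvB
        exact ⟨A, C, fun _ => ⟨g1, g2, fun h => absurd he h⟩⟩
      · obtain ⟨A, C, g1, g2, g3⟩ := hv v hvB he
        exact ⟨A, C, fun _ => ⟨g1, g2, fun _ => g3⟩⟩
    · exact ⟨0, 0, fun h => absurd h hvB⟩
  choose A Q hAQ using hch
  obtain ⟨g1, g2⟩ := general hΛ hY hZ ℓ hℓk hlay hΛ' hP (b := 1) hmY hmZ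
    (m := fun v => (mult ℓ (qq ^ 1)⁻¹ (S.deg v) (A v) : ℤ) - mult ℓ (qq ^ 1)⁻¹ (S.deg v) (Q v))
    (fun v hvB => ⟨A v, Q v, (hAQ v hvB).1, (hAQ v hvB).2.1, rfl⟩) hW hR
  rw [← hqq, hx] at g1 g2
  rw [hW0] at g1
  have e5 : (triv ℓ (Nat.card k) 2 c 1 : ℤ) = 2 + 2 * (if qq = 1 then 1 else 0) := by
    unfold triv
    rw [Finset.sum_range_succ, Finset.sum_range_succ, Finset.sum_range_zero, hc 0 (by norm_num),
      hc 1 (by norm_num)]
    simp only [← hqq, pow_zero, zero_add, pow_one, if_true, one_mul]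
    have e6 : ((1 : ZMod ℓ) = qq) = (qq = 1) := by rw [eq_iff_iff, eq_comm]
    have e7 : (qq ^ (1 + 1) = qq) = (qq = 1) := by
      rw [eq_iff_iff, pow_succ, pow_one]
      exact mul_eq_left₀ hq0
    simp only [e6, e7]
    split_ifs <;> norm_num
  have e8 : predicted ℓ (Nat.card k) 2 c 1 (finrank (RatFunc k) L) e B
      (-(1 + 2 * (if qq = 1 then 1 else 0))) (-1)
      (fun v => (mult ℓ qq⁻¹ (S.deg v) (A v) : ℤ) - mult ℓ qq⁻¹ (S.deg v) (Q v)) ≤ 0 := by
    unfold predicted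
    rw [e5]
    have e9 : ∑ v ∈ B, ((finrank (RatFunc k) L : ℤ) - (finrank (RatFunc k) L / e v : ℕ)) *
        ((mult ℓ qq⁻¹ (S.deg v) (A v) : ℤ) - mult ℓ qq⁻¹ (S.deg v) (Q v)) ≤ 0 := by
      refine Finset.sum_nonpos fun v hvB => ?_
      by_cases he : e v = 1
      · rw [he, Nat.div_one, _root_.sub_self, zero_mul]
      · rw [(hAQ v hvB).2.2 he]
        have h4 : ((finrank (RatFunc k) L / e v : ℕ) : ℤ) ≤ (finrank (RatFunc k) L : ℤ) := by
          exact_mod_cast Nat.div_le_self _ _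
        have h5 : (0 : ℤ) ≤ mult ℓ qq⁻¹ (S.deg v) (Q v) := Int.natCast_nonneg _
        have h6 : (((0 : ℕ) : ℤ) - mult ℓ qq⁻¹ (S.deg v) (Q v)) ≤ 0 := by push_cast; linarith
        exact mul_nonpos_of_nonneg_of_nonpos (by linarith) h6
    have e10 : (-(1 + 2 * (if qq = 1 then 1 else 0)) + -1 + (2 + 2 * (if qq = 1 then 1 else 0)) : ℤ) =
        0 := by ring
    rw [e10, mul_zero, zero_add]
    exact e9
  have e11 : mult ℓ qq⁻¹ (finrank k k') R = 0 := by
    have := g1.trans_le e8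
    push_cast at this
    omega
  refine ⟨e11, ?_⟩
  rw [e11, pow_one] at g2
  have i5 : Module.Finite k k' := Module.Finite.of_finite
  exact (Nat.mul_eq_zero.1 (Nat.le_zero.1 g2)).resolve_left finrank_pos.ne'

/-- Let `k` be a finite field with `q` elements, of any characteristic, `Y` ANY projective variety over `k`
(of any dimension, with any singularities: the common zeros of the forms in `I`), `F` and `G` forms of the
same degree, and `Z` the base locus `F = G = 0` in `Y`; let `ZY`, `ZB` be the zeta functions of `Y` and `Z`.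
The pencil `F = t G` is a family of subvarieties of `Y` over the line; its generic fibre `X` is a variety
over `k(t)`. For a finite extension `L` of `k(t)` with field of constants `k'`, `q' = |k'|`, let
`𝒳_L → C_L` be the pull back of the family, `C_L` the curve with function field `L`, and `Λ_L(T)` the Euler
product over the places of `L` for a polynomial `c(Q) = ∑ c_i Q ^ i`, so that
`Λ_L(T) = ∏ ζ_L(q' ^ i T) ^ c_i / Z(𝒳_L, T)`. If the fibres are curves and `c(Q) = 1 + Q` the Euler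
factors are the numerators of the zeta functions of the fibres: at `1 / q'`, that is `s = dim C_L = 1`,
the order of vanishing of `Λ_L` is that of the function `Φ_1` of `X / L` plus the sum over the places `w`
of `m_w - 1`, where `m_w` is the number of the irreducible components of the fibre over the residue field.

(1) Over `k(t)` one has `Λ(T) ZY(T) ZB(q T) ∏ ((1 - q ^ i T) (1 - q ^ (i + 1) T)) ^ c_i = 1`.

(2) Let `ℓ` be a prime different from the characteristic and `L` any finite Galois extension of `k(t)` of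
degree a power of `ℓ`, with ramification indices `e_v`, and let `P_v = A_v / Q_v` be the Euler factors
at the ramified places `v`, `Λ_L = R / W`. For all `b`, if the orders (zeros minus poles) modulo `ℓ` of
`ZY` at `q ^ (-b)` and of `ZB` at `q ^ (1 - b)` are `mY` and `mZ`, the order modulo `ℓ` of
`Λ_L(T ^ [k' : k])` at `q ^ (-b)` is exactly
`- [L : k(t)] (mY + mZ + triv) + ∑_v ([L : k(t)] - [L : k(t)] / e_v) m_v`, where `triv` is that of the
trivial factors in (1) and `m_v` that of `P_v(T ^ (deg v))`; and `[k' : k]` times the order of vanishing of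
`R` at `q' ^ (-b)` is at most the multiplicity of `R` modulo `ℓ`. So the order of the zeta function of
the total space `𝒳_L` at any integer is bounded by data over `k`, for all these `L` at once.

(3) Let `ZY = P₁(T) P₁(q T) / ((1 - T) P₂(T) (1 - q ^ 2 T))`, as for smooth surfaces `Y`, `c(Q) = 1 + Q`, and
let the base locus be one closed point of degree prime to `ℓ` (`ZB = 1 / (1 - T ^ d₀)`). Suppose that `1 / q`
is a simple zero of `P₂` modulo `ℓ` (so the Picard number of `Y` is one, and in the formula of Artin and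
Tate for `Y` all terms are prime to `ℓ`), that `ℓ` does not divide `P₁(1)` and `P₁(1 / q)` (the number of
points of the Albanese variety), and that at the ramified places `A_v(1 / q_v)` is not zero modulo `ℓ` (for
a smooth fibre: `ℓ` does not divide the number of the rational points of its Jacobian). Then
`Λ_L = R / W` with `W(1 / q')` not divisible by `ℓ` (`W = 1` if `P₁ = 1`, and in general one can take
`P₁(T) P₁(q' T)` over `k'`) does not vanish at `1 / q'`. So for the curve `X` over `L`, by Tate's inequality,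
`rank Pic⁰(X)(L) = ord Φ_1 = 0`: Tate's form of the conjecture of Birch and Swinnerton-Dyer holds for `X`
over all these `L`, of unbounded genus and with any field of constants.

For the plane, `ZY = 1 / ((1 - T) (1 - q T) (1 - q ^ 2 T))`, this is a result for plane curves; new examples
are the pencils on all cubic surfaces, del Pezzo surfaces, K3 surfaces and surfaces of general type
with Picard number one over `k`. -/
theorem result (k : Type) [Field k] [Finite k] (n d : ℕ)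
    (I : Set (MvPolynomial (Fin (n + 1)) k)) (F G : MvPolynomial (Fin (n + 1)) k)
    (hI : IsPencil d I F G) (N : ℕ) (c : ℕ → ℕ) (Λ ZY ZB : PowerSeries ℤ)
    (hΛ : IsL k N c (RatFunc.X : RatFunc k) I F G Λ) (hY : IsZeta I ZY)
    (hZ : IsZeta (I ∪ {F, G}) ZB) :
    Λ * ZY * PowerSeries.rescale (Nat.card k : ℤ) ZB *
      ((∏ i ∈ Finset.range N, ((1 - C ((Nat.card k : ℤ) ^ i) * X) *
        (1 - C ((Nat.card k : ℤ) ^ (i + 1)) * X)) ^ c i : ℤ[X]) : PowerSeries ℤ) = 1 ∧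
    ∀ (ℓ : ℕ) [Fact ℓ.Prime], (ℓ : k) ≠ 0 → ∀ (k' L : Type) [Field k'] [Finite k'] [Field L]
      [Algebra k' L] [Algebra k k'] [Algebra k L] [Algebra (RatFunc k) L]
      [IsScalarTower k (RatFunc k) L] [IsScalarTower k k' L] (e : Place k (RatFunc k) → ℕ)
      (B : Finset (Place k (RatFunc k))), IsLayer k k' L ℓ e B →
      ∀ Λ' : PowerSeries ℤ, IsL k' N c (algebraMap (RatFunc k) L RatFunc.X)
          (MvPolynomial.map (algebraMap k k') '' I) (MvPolynomial.map (algebraMap k k') F)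
          (MvPolynomial.map (algebraMap k k') G) Λ' →
      ∀ (P : Place k (RatFunc k) → PowerSeries ℤ) (A Q : Place k (RatFunc k) → ℤ[X]),
        (∀ v ∈ B, IsP N c v (RatFunc.X : RatFunc k) I F G (P v) ∧ (Q v).coeff 0 = 1 ∧
          P v * (Q v : PowerSeries ℤ) = (A v : PowerSeries ℤ)) →
      ∀ W R : ℤ[X], W.coeff 0 = 1 → Λ' * (W : PowerSeries ℤ) = (R : PowerSeries ℤ) →
      (∀ (b : ℕ) (x : ZMod ℓ) (mY mZ : ℤ), ((Nat.card k : ℕ) : ZMod ℓ) ^ b * x = 1 →
        IsMult ℓ x 1 ZY mY → IsMult ℓ (((Nat.card k : ℕ) : ZMod ℓ) * x) 1 ZB mZ →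
          (mult ℓ x (finrank k k') R : ℤ) - mult ℓ x (finrank k k') W =
            predicted ℓ (Nat.card k) N c b (finrank (RatFunc k) L) e B mY mZ
              (fun v => (mult ℓ x (S.deg v) (A v) : ℤ) - mult ℓ x (S.deg v) (Q v)) ∧
          finrank k k' * order (Nat.card k' ^ b) R ≤ mult ℓ x (finrank k k') R) ∧
      (N = 2 → (∀ i, i < 2 → c i = 1) → ∀ (P₁ P₂ : ℤ[X]) (d₀ : ℕ) (x : ZMod ℓ),
        ((Nat.card k : ℕ) : ZMod ℓ) * x = 1 → IsSurface (Nat.card k : ℤ) P₁ P₂ ZY →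
        ¬ ℓ ∣ d₀ → ZB * ((1 - X ^ d₀ : ℤ[X]) : PowerSeries ℤ) = 1 →
        mult ℓ x 1 P₂ = 1 → mult ℓ x 1 P₁ = 0 → mult ℓ 1 1 P₁ = 0 →
        (∀ v ∈ B, e v ≠ 1 → mult ℓ x (S.deg v) (A v) = 0) → mult ℓ x (finrank k k') W = 0 →
        mult ℓ x (finrank k k') R = 0 ∧ order (Nat.card k') R = 0) := by
  refine ⟨exact_var hΛ hY hZ |> fun h => by rw [← triv_coe] at h; exact h, ?_⟩
  intro ℓ hℓ hℓk k' L _ _ _ _ _ _ _ _ _ e B hlay Λ' hΛ' P A Q hP W R hW hR
  have hq0 := card_ne_zero_mod (k := k) hℓk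
  refine ⟨?_, ?_⟩
  · intro b x mY mZ hx hmY hmZ
    obtain rfl : x = (((Nat.card k : ℕ) : ZMod ℓ) ^ b)⁻¹ := eq_inv_of_mul_eq_one_right hx
    exact general hΛ hY hZ ℓ hℓk hlay hΛ' (fun v hv => (hP v hv).1) hmY hmZ
      (fun v hv => ⟨A v, Q v, (hP v hv).2.1, (hP v hv).2.2, rfl⟩) hW hR
  · intro hN hc P₁ P₂ d₀ x hx hS hd₀ hB h2 h1 h1' hv hW0
    obtain rfl : x = (((Nat.card k : ℕ) : ZMod ℓ))⁻¹ := eq_inv_of_mul_eq_one_right hx
    exact surface hN hc hΛ hY hZ ℓ hℓk hlay hΛ' (fun v hv => (hP v hv).1) hS hd₀ hB h2 h1 h1'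
      (fun v hvB he => ⟨A v, Q v, (hP v hvB).2.1, (hP v hvB).2.2, hv v hvB he⟩)
      (fun v hvB => ⟨A v, Q v, (hP v hvB).2.1, (hP v hvB).2.2⟩) hW hR hW0

end Pool.Agent.Results.MP_9faec4_nt.PencilsOnVarieties
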