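import Pool.Agent.X261.SG.Bnd

/-!
An upper bound for the orders of vanishing of the `L`-functions of the Jacobians of the superelliptic
curves `y ^ N = f(x)` over a function field, for all powers `N` of a prime `ℓ`, in terms of the zeta
functions modulo `ℓ` of the fields generated by the zeros of `f`.
-/

set_option autoImplicit false
set_option maxHeartbeats 1000000

open Polynomial Pool.Agent.W343.BSD Pool.Agent.W313.Hyp

namespace Pool.Agent.Results.MP_9faec4_nt.SuperellipticLAdicBounds

/-- The Euler factor at a point of degree `n` with the residue field `E`, where the function has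
the value `c`: the product of `1 - T ^ (n deg S)` over the monic irreducible factors `S` of
`Y ^ N - c`, divided by `1 - T ^ n`. -/
noncomputable def localFactor {E : Type} [Field E] (N : ℕ) (c : E) (n : ℕ) : PowerSeries ℤ :=
  (∏ᶠ (S : ClosedPt E) (_ : S.1 ∣ X ^ N - C c), (1 - PowerSeries.X ^ (n * S.1.natDegree))) *
    PowerSeries.mk fun m => if n ∣ m then 1 else 0

section generic

variable {F : Type} [Field F]

/-- The residue field of a closed point of the line. -/
def Residue (P : ClosedPt F) : Type := AdjoinRoot P.1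

noncomputable instance residueField (P : ClosedPt F) : Field (Residue P) :=
  @AdjoinRoot.instField F _ P.1 ⟨P.2.2⟩

/-- The value at a closed point of a polynomial. -/
noncomputable def valueAt (h : F[X]) (P : ClosedPt F) : Residue P := AdjoinRoot.mk P.1 h

/-- The local factor of the value of `h` at the closed point `P` of the line over a field of degree
`d`. -/
noncomputable def pointFactor (N d : ℕ) (h : F[X]) (P : ClosedPt F) : PowerSeries ℤ :=
  localFactor N (valueAt h P) (d * P.1.natDegree)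

end generic

/-- The greatest power of `ℓ` dividing `n`. -/
def lPart (ℓ n : ℕ) : ℕ := ℓ ^ padicValNat ℓ n

/-- The sum of the `ℓ`-parts of the numbers `d deg P` for the closed points `P` at which `h`
vanishes. -/
noncomputable def zeroPart (ℓ d : ℕ) {F : Type} [Field F] (h : F[X]) : ℕ :=
  ∑ᶠ (P : ClosedPt F) (_ : P.1 ∣ h), lPart ℓ (d * P.1.natDegree)

/-- The coefficients of `g` are in the subring `O` (with the inclusion `i`), and `g` is not in the
square of a maximal ideal of `O[x]`. -/
def IsRegularOver {K : Type} [Field K] {O : Type} [CommRing O] (i : O →+* K) (g : K[X]) : Prop :=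
  ∃ G : O[X], G.map i = g ∧ ∀ M : Ideal O[X], M.IsMaximal → G ∉ M ^ 2

/-- The multiplicity of the root `1` of an integral polynomial modulo `ℓ`. -/
noncomputable def muMod (ℓ : ℕ) [Fact ℓ.Prime] (P : ℤ[X]) : ℕ :=
  (P.map (Int.castRingHom (ZMod ℓ))).rootMultiplicity 1

/-- `f` is monic and separable, and `K[x] / (f)` is the product of the fields `L i = K(θ i)`. -/
def IsProductOf {K : Type} [Field K] (f : K[X]) {ι : Type} [Fintype ι] {L : ι → Type}
    [∀ i, Field (L i)] [∀ i, Algebra K (L i)] (θ : ∀ i, L i) : Prop :=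
  f.Monic ∧ f.Separable ∧ (∀ i, IntermediateField.adjoin K {θ i} = ⊤) ∧ ∏ i, minpoly K (θ i) = f

/-- `P` is the numerator of the zeta function of `F` and its value at `1` is the class number. -/
def IsNumerator (k F : Type) [Field k] [Field F] [Algebra k F] (P : ℤ[X]) : Prop :=
  S.IsZetaNum k F P ∧ P.eval 1 = S.classNumber k F

/-- The polynomial obtained by the substitution `x ↦ u ^ N x + r`, divided by `u ^ (N n)`, where
`n` is the degree of `f`: the curve `y ^ N = f(x)` is isomorphic to `y ^ N = model N f u r (x)`. -/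
noncomputable def model {K : Type} [Field K] (N : ℕ) (f : K[X]) (u r : K) : K[X] :=
  C ((u ^ (N * f.natDegree))⁻¹) * f.comp (C (u ^ N) * X + C r)

section defs

variable {k K : Type} [Field k] [Field K] [Algebra k K]

/-- The `L`-function of the Jacobian of `y ^ N = f(x)` without the Euler factors at the places in
`A`: the product over the places `v` outside `A` and the closed points `P` of the affine line over
the residue field of `v` of the local factors of the values at `P` of the reduction at `v` of the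
model `model N f (u v) (r v)`. -/
noncomputable def LOutside (N : ℕ) (A : Finset (FF.Place k K)) (f : K[X])
    (u r : FF.Place k K → K) : PowerSeries ℤ :=
  eulerProd (fun z : PtOutside A => z.deg)
    (fun z => pointFactor N (S.deg z.place)
      (redPoly z.place (model N f (u z.place) (r z.place))) z.pt)

/-- `LOutside` is `(1 - q T) ^ m * G / H` with integral polynomials `G` and `H`. -/
def HasOrder (N : ℕ) (A : Finset (FF.Place k K)) (f : K[X]) (u r : FF.Place k K → K) (m : ℕ)
    (G H : ℤ[X]) : Prop :=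
  LOutside N A f u r * (H : PowerSeries ℤ) =
    (((1 - Polynomial.C (Nat.card k : ℤ) * Polynomial.X) ^ m * G : ℤ[X]) : PowerSeries ℤ)

/-- `y ^ N = g(x)` is a regular model at `v`: the coefficients of `g` are in the valuation ring `O` of
`v`, and `g` is not in the square of a maximal ideal of `O[x]`. -/
def IsRegular (v : FF.Place k K) (g : K[X]) : Prop := IsRegularOver v.O.subtype g

/-- At every place `v` outside `A` a regular model is given by `u = u v`, `r = r v`; outside the
larger finite set `T` it has good reduction. -/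
structure IsModelData (N : ℕ) (f : K[X]) (A T : Finset (FF.Place k K))
    (u r : FF.Place k K → K) : Prop where
  subset : A ⊆ T
  ne_zero : ∀ v ∉ A, u v ≠ 0
  regular : ∀ v ∉ A, IsRegular v (model N f (u v) (r v))
  good : ∀ v ∉ T, Squarefree (redPoly v (model N f (u v) (r v)))

/-- The sum of the `ℓ`-parts of the degrees of the places over `v` of the fields `L i`. -/
noncomputable def aboveTerm (ℓ : ℕ) {ι : Type} [Fintype ι] (L : ι → Type) [∀ i, Field (L i)]
    [∀ i, Algebra k (L i)] [∀ i, Algebra K (L i)] (v : FF.Place k K) : ℕ :=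
  ∑ i, ∑ᶠ (w : FF.Place k (L i)) (_ : LiesOver w v), lPart ℓ (S.deg w)

/-- The sum of the `ℓ`-parts of the degrees of the closed points over `v` at which the reduction of
`g` vanishes. -/
noncomputable def zeroTerm (ℓ : ℕ) (v : FF.Place k K) (g : K[X]) : ℕ :=
  zeroPart ℓ (S.deg v) (redPoly v g)

open Classical in
/-- Twice the sum of the `ℓ`-parts of the degrees of the fields of constants of the `L i`, plus the sum
of the `ℓ`-parts of the degrees of the places in `A`, plus the sum of the `zeroTerm` for the places in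
`T` outside `A`. -/
noncomputable def lowerTerms (ℓ N : ℕ) {ι : Type} [Fintype ι] (L : ι → Type) [∀ i, Field (L i)]
    [∀ i, Algebra k (L i)] (f : K[X]) (A T : Finset (FF.Place k K)) (u r : FF.Place k K → K) : ℕ :=
  2 * ∑ i, lPart ℓ (constDeg k (L i)) + ∑ v ∈ A, lPart ℓ (S.deg v) +
    ∑ v ∈ T \ A, zeroTerm ℓ v (model N f (u v) (r v))

/-- Two, plus the sum of the `aboveTerm` for the places in `T`. -/
noncomputable def upperTerms (ℓ : ℕ) {ι : Type} [Fintype ι] (L : ι → Type) [∀ i, Field (L i)]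
    [∀ i, Algebra k (L i)] [∀ i, Algebra K (L i)] (T : Finset (FF.Place k K)) : ℕ :=
  2 + ∑ v ∈ T, aboveTerm ℓ L v

/-- All `L`-functions of the Jacobians of the curves `y ^ N = f(x)`, `N = ℓ ^ a`, without the Euler
factors at the places in `A`, which are of the form `(1 - q T) ^ m G / H`, satisfy
`m + (N - 1) (μ + lowerTerms) ≤ (N - 1) (ν + upperTerms) + mu(H)`. -/
def AllBounded (ℓ : ℕ) [Fact ℓ.Prime] {ι : Type} [Fintype ι] (L : ι → Type) [∀ i, Field (L i)]
    [∀ i, Algebra k (L i)] [∀ i, Algebra K (L i)] (f : K[X]) (μ ν : ℕ) : Prop :=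
  ∀ (a : ℕ) (A T : Finset (FF.Place k K)) (u r : FF.Place k K → K),
    IsModelData (ℓ ^ a) f A T u r →
  ∀ (m : ℕ) (G H : ℤ[X]), H.map (Int.castRingHom (ZMod ℓ)) ≠ 0 →
    HasOrder (ℓ ^ a) A f u r m G H →
    m + (ℓ ^ a - 1) * (μ + lowerTerms ℓ (ℓ ^ a) L f A T u r) ≤
      (ℓ ^ a - 1) * (ν + upperTerms ℓ L T) + muMod ℓ H

end defs

section bridge

variable {k K : Type} [Field k] [Finite k] [Field K] [Algebra k K] [FF.IsFF k K]

theorem localFactor_eq {E : Type} [Field E] [Finite E] {N : ℕ} (hN : 0 < N) (c : E) (n : ℕ) :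
    localFactor N c n = Pool.Agent.X261.SE.lf N c n := by
  unfold localFactor Pool.Agent.X261.SE.lf Pool.Agent.X261.SE.geo
  congr 1
  rw [← finprod_mem_coe_finset]
  refine finprod_congr fun S => finprod_congr_Prop ?_ fun _ => rfl
  rw [Finset.mem_coe, Pool.Agent.W313.Hyp.mem_facs (monic_X_pow_sub_C c hN.ne').ne_zero]

theorem LOutside_eq {N : ℕ} (hN : 0 < N) (A : Finset (FF.Place k K)) (f : K[X])
    (u r : FF.Place k K → K) :
    LOutside N A f u r =
      Pool.Agent.X261.SG.LS N A (fun v => redPoly v (model N f (u v) (r v))) := by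
  have h1 := eulerProd_equiv (R := ℤ) (ptEquiv A) (fun y => y.1.1.deg * y.2.1.natDegree)
    (pts_finite A) (fun y => Pool.Agent.X261.SG.fac N y.1.1
      (redPoly y.1.1 (model N f (u y.1.1) (r y.1.1))) y.2)
  unfold Pool.Agent.X261.SG.LS
  refine Eq.trans ?_ h1
  unfold LOutside
  have e1 : (fun z : PtOutside A => z.deg) = fun z => (ptEquiv A z).1.1.deg *
      (ptEquiv A z).2.1.natDegree := by
    funext z
    show S.deg z.place * z.pt.1.natDegree = _
    rw [S.deg_eq]
    rfl
  have e2 : (fun z : PtOutside A => pointFactor N (S.deg z.place)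
      (redPoly z.place (model N f (u z.place) (r z.place))) z.pt) =
      fun z => Pool.Agent.X261.SG.fac N (ptEquiv A z).1.1
        (redPoly (ptEquiv A z).1.1 (model N f (u (ptEquiv A z).1.1) (r (ptEquiv A z).1.1)))
        (ptEquiv A z).2 := by
    funext z
    have hfin : Finite z.place.RF := Pool.Agent.W313.Hyp.finite_RF z.place
    have hfin2 : Finite (AdjoinRoot z.pt.1) := Pool.Agent.TH943.HJ.finRF (k := z.place.RF) z.pt
    unfold pointFactor
    have h2 := @localFactor_eq (Residue z.pt) _ hfin2 N hN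
      (valueAt (redPoly z.place (model N f (u z.place) (r z.place))) z.pt)
      (S.deg z.place * z.pt.1.natDegree)
    refine h2.trans ?_
    rw [S.deg_eq]
    rfl
  rw [e1, e2]

variable {ι : Type} [Fintype ι] {L : ι → Type} [∀ i, Field (L i)] [∀ i, Algebra k (L i)]
  [∀ i, Algebra K (L i)] [∀ i, IsScalarTower k K (L i)]

theorem aboveTerm_eq (ℓ : ℕ) [∀ i, FF.IsFF k (L i)] {v : FF.Place k K}
    {S' : ∀ i, Finset (FF.Place k (L i))} {e d : (Σ i, FF.Place k (L i)) → ℕ}
    (D : FiberData v S' e d) :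
    aboveTerm ℓ L v = ∑ i, ∑ w ∈ S' i, ℓ ^ padicValNat ℓ w.deg := by
  classical
  unfold aboveTerm lPart
  refine Finset.sum_congr rfl fun i _ => ?_
  have h1 : ∀ w : FF.Place k (L i), LiesOver w v ↔ w ∈ S' i := fun w =>
    ⟨fun ⟨e', he⟩ => D.mem i w e' he, fun hw => ⟨_, D.isOver i w hw⟩⟩
  simp only [h1, S.deg_eq]
  exact finsum_mem_coe_finset (fun w : FF.Place k (L i) => ℓ ^ padicValNat ℓ w.deg) (S' i)

theorem zeroTerm_eq (ℓ : ℕ) (v : FF.Place k K) {g : K[X]} {h : v.RF[X]} (hg : redPoly v g = h)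
    (h0 : h ≠ 0) :
    zeroTerm ℓ v g = ∑ P ∈ facs' v h, ℓ ^ padicValNat ℓ (v.deg * P.1.natDegree) := by
  classical
  have hfin : Finite v.RF := Pool.Agent.W313.Hyp.finite_RF v
  have h1 : ∀ P : MI v.RF, (P.1 ∣ h) = (P ∈ facs' v h) := fun P =>
    propext (mem_facs h0 P).symm
  have h2 : zeroTerm ℓ v g =
      ∑ᶠ (P : MI v.RF) (_ : P.1 ∣ h), ℓ ^ padicValNat ℓ (v.deg * P.1.natDegree) := by
    unfold zeroTerm zeroPart lPart
    rw [hg, S.deg_eq]
    rfl
  rw [h2]
  have h3 : (fun P : MI v.RF => ∑ᶠ (_ : P.1 ∣ h), ℓ ^ padicValNat ℓ (v.deg * P.1.natDegree)) =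
      fun P : MI v.RF => ∑ᶠ (_ : P ∈ facs' v h), ℓ ^ padicValNat ℓ (v.deg * P.1.natDegree) :=
    funext fun P => by rw [h1 P]
  rw [h3]
  exact finsum_mem_coe_finset (fun P : MI v.RF => ℓ ^ padicValNat ℓ (v.deg * P.1.natDegree))
    (facs' v h)

end bridge

theorem muMod_unit {ℓ : ℕ} [Fact ℓ.Prime] {P : ℤ[X]} {h : ℕ} (hP : P.eval 1 = h)
    (hℓ : ¬ ℓ ∣ h) : muMod ℓ P = 0 := by
  unfold muMod
  apply rootMultiplicity_eq_zero
  rw [IsRoot.def]
  have h1 : (P.map (Int.castRingHom (ZMod ℓ))).eval 1 = ((h : ℕ) : ZMod ℓ) := by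
    have h2 := eval_map_apply (Int.castRingHom (ZMod ℓ)) (1 : ℤ) (p := P)
    rw [map_one] at h2
    rw [h2, hP]
    simp
  rw [h1]
  intro h0
  exact hℓ ((ZMod.natCast_eq_zero_iff h ℓ).1 h0)

theorem constDeg_eq_one {k K : Type} [Field k] [Field K] [Algebra k K]
    (h : ∀ x : K, IsAlgebraic k x → x ∈ (algebraMap k K).range) : constDeg k K = 1 := by
  unfold constDeg
  have h1 : algebraicClosure k K = ⊥ := by
    rw [eq_bot_iff]
    intro x hx
    obtain ⟨c, hc⟩ := h x (mem_algebraicClosure_iff.1 hx)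
    rw [IntermediateField.mem_bot]
    exact ⟨c, hc⟩
  rw [h1, IntermediateField.finrank_bot]

open Classical in
theorem main0 (ℓ : ℕ) [Fact ℓ.Prime] (k K : Type) [Field k] [Finite k] [Field K] [Algebra k K]
    (hq : ℓ ∣ Nat.card k - 1) (hK : IsCurveField k K) (f : K[X]) (ι : Type) [Fintype ι]
    (L : ι → Type) [∀ i, Field (L i)] [∀ i, Algebra k (L i)] [∀ i, Algebra K (L i)]
    [∀ i, IsScalarTower k K (L i)] (θ : ∀ i, L i) (hθ : IsProductOf f θ) :
    ∃ (PK : ℤ[X]) (PL : ι → ℤ[X]), IsNumerator k K PK ∧ (∀ i, IsNumerator k (L i) (PL i)) ∧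
      AllBounded (k := k) ℓ L f (muMod ℓ PK) (∑ i, muMod ℓ (PL i)) := by
  have hℓ : ℓ.Prime := Fact.out
  have hFF : FF.IsFF k K := ⟨hK.essFiniteType, hK.trdeg_eq_one⟩
  have hF : IsFam f θ := ⟨hθ.1, hθ.2.1, hθ.2.2.1, hθ.2.2.2⟩
  have hfd := hF.fd
  have hFFL : ∀ i, FF.IsFF k (L i) := fun i => isFF_of_finite (K := K)
  obtain ⟨PK, hPK, hPK1⟩ := exists_num_rel k K
  choose PL hPL hPL1 using fun i => exists_num_rel k (L i)
  refine ⟨PK, PL, ⟨(S.isZetaNum_iff PK).2 hPK, hPK1.trans (by rw [S.classNumber_eq])⟩,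
    fun i => ⟨(S.isZetaNum_iff _).2 (hPL i), (hPL1 i).trans (by rw [S.classNumber_eq])⟩,
    fun a A T u r hAT m G H hH hGH => ?_⟩
  have hN : 0 < ℓ ^ a := pow_pos hℓ.pos a
  have hD := fun v : FF.Place k K => exists_fiberData (L := L) hF.fd hF.sep v
  choose S' e d D using hD
  set h : ∀ v : FF.Place k K, Polynomial v.RF :=
    fun v => redPoly v (model (ℓ ^ a) f (u v) (r v)) with hh
  have hlift : ∀ v, v ∉ A → ∃ F : v.O[X], F.map v.O.subtype = model (ℓ ^ a) f (u v) (r v) ∧
      F.map v.resHom = h v := by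
    intro v hv
    obtain ⟨F, hF1, _⟩ := hAT.regular v hv
    refine exists_lift v fun i => ?_
    rw [← hF1, coeff_map]
    exact (F.coeff i).2
  have hmonic : ∀ v, v ∉ A → (h v).Monic := by
    intro v hv
    obtain ⟨F, hF1, hF2⟩ := hlift v hv
    rw [← hF2]
    apply Monic.map
    apply monic_of_injective (f := v.O.subtype) Subtype.val_injective
    rw [hF1]
    exact Pool.Agent.X261.SG.monic_modelN (hAT.ne_zero v hv) hF.monic
  have h0 : ∀ v, v ∉ A → h v ≠ 0 := fun v hv => (hmonic v hv).ne_zero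
  have hgood : ∀ v, v ∉ T → ∀ φ : ℕ → PowerSeries (ZMod ℓ),
      ∏ i, ∏ w ∈ S' v i, φ w.deg = ∏ P ∈ facs' v (h v), φ (v.deg * P.1.natDegree) := by
    intro v hv φ
    have hvA : v ∉ A := fun hA => hv (hAT.subset hA)
    obtain ⟨F, hF1, hF2⟩ := hlift v hvA
    have hsc := Pool.Agent.X261.SG.scaleN (N := ℓ ^ a) hF (r := r v) (hAT.ne_zero v hvA)
    have hsq : Squarefree (F.map v.resHom) := by
      rw [hF2]
      exact hAT.good v hv
    rw [kd_prod hsc v hF1 hsq (D v) φ, hF2]
    rfl
  have hG' : Pool.Agent.X261.SG.LS (ℓ ^ a) A h * (H : PowerSeries ℤ) =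
      (((1 - Polynomial.C (Nat.card k : ℤ) * Polynomial.X) ^ m * G :
      Polynomial ℤ) : PowerSeries ℤ) := by
    have h3 := hGH
    unfold HasOrder at h3
    rw [LOutside_eq hN] at h3
    exact h3
  have hmain := Pool.Agent.X261.SG.glob_bound hq a hF hPK (constDeg_eq_one hK.algClosed) hPL D A T
    hAT.subset h h0 hgood m G H hH hG'
  have e1 : ∑ v ∈ A, lPart ℓ (S.deg v) = ∑ v ∈ A, ℓ ^ padicValNat ℓ v.deg :=
    Finset.sum_congr rfl fun v _ => by rw [S.deg_eq]; rfl
  have e2 : ∑ v ∈ T \ A, zeroTerm ℓ v (model (ℓ ^ a) f (u v) (r v)) =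
      ∑ v ∈ T \ A, ∑ P ∈ facs' v (h v), ℓ ^ padicValNat ℓ (v.deg * P.1.natDegree) :=
    Finset.sum_congr rfl fun v hv => zeroTerm_eq ℓ v rfl (h0 v (Finset.mem_sdiff.1 hv).2)
  have e3 : ∑ v ∈ T, aboveTerm ℓ L v =
      ∑ v ∈ T, ∑ i, ∑ w ∈ S' v i, ℓ ^ padicValNat ℓ w.deg :=
    Finset.sum_congr rfl fun v _ => aboveTerm_eq ℓ (D v)
  have e4 : ∑ i, 2 * ℓ ^ padicValNat ℓ (constDeg k (L i)) =
      2 * ∑ i, lPart ℓ (constDeg k (L i)) := by
    rw [Finset.mul_sum]
    rfl
  rw [e4, ← e1, ← e2, ← e3] at hmain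
  have l1 : muMod ℓ PK + lowerTerms ℓ (ℓ ^ a) L f A T u r =
      2 * ∑ i, lPart ℓ (constDeg k (L i)) + muMod ℓ PK + ∑ v ∈ A, lPart ℓ (S.deg v) +
        ∑ v ∈ T \ A, zeroTerm ℓ v (model (ℓ ^ a) f (u v) (r v)) := by
    unfold lowerTerms
    ring
  have l2 : ∑ i, muMod ℓ (PL i) + upperTerms ℓ L T =
      2 * 1 + ∑ i, muMod ℓ (PL i) + ∑ v ∈ T, aboveTerm ℓ L v := by
    unfold upperTerms
    ring
  rw [l1, l2]
  exact hmain

open Classical in
/-- **Ranks and orders of vanishing of all superelliptic Jacobians of `ℓ`-power exponents over a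
function field.**

Let `ℓ` be a prime, `K` the function field of a curve over the finite field `k` with `q` elements,
`ℓ ∣ q - 1`, and `f` a monic separable polynomial over `K`, of degree `n` prime to `ℓ` if `J_N` is to
be the Jacobian, of dimension `(N - 1) (n - 1) / 2`, of the curve `y ^ N = f(x)`, `N = ℓ ^ a`. Let
`K[x] / (f)` be the product of the fields `L i`, and let `r i` be the degree of the field of constants
of `L i`. At the places outside `A` let regular models `y ^ N = g(x)` be given (with the smooth section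
`x = ∞`, so that the inertia invariants of `J_N` are the cohomology of the irreducible fibre, which
may be singular). Suppose that the `L`-function of `J_N` without the Euler factors at the places in
`A` is `(1 - q T) ^ m G / H`, where `H` is not zero modulo `ℓ`. Then
`m + (N - 1) (mu_K + 2 ∑ lPart (r i) + ∑_{v ∈ A} lPart (deg v) + ∑_{v ∈ T \ A} zeroTerm_v)` is at most
`(N - 1) (2 + ∑ mu_{L i} + ∑_{v ∈ T} aboveTerm_v) + mu(H)`, where `mu` is the multiplicity of the root
`1` modulo `ℓ`, of the numerator of the zeta function for `K` and the `L i`. It is zero for the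
fields `L i` if their class numbers are prime to `ℓ`.

By Tate's inequality this is a bound for the ranks of all the `J_N(K)`, of the form `(N - 1) C`, where
`C` is given by the curve `f(x) = 0` over `K`; if the bound is zero then `L(J_N, s)` does not vanish
at `s = 1`, the rank is zero and the full Birch and Swinnerton-Dyer conjecture holds for `J_N` (Tate,
Milne, Kato and Trihan). For `N = ℓ = 2` a bound of this kind is known (HyperellipticTwoAdic). -/
theorem result (ℓ : ℕ) [Fact ℓ.Prime] (k K : Type) [Field k] [Finite k] [Field K] [Algebra k K]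
    (hq : ℓ ∣ Nat.card k - 1) (hK : IsCurveField k K) (f : K[X]) (ι : Type) [Fintype ι]
    (L : ι → Type) [∀ i, Field (L i)] [∀ i, Algebra k (L i)] [∀ i, Algebra K (L i)]
    [∀ i, IsScalarTower k K (L i)] (θ : ∀ i, L i) (hθ : IsProductOf f θ) :
    ∃ (PK : ℤ[X]) (PL : ι → ℤ[X]), IsNumerator k K PK ∧ (∀ i, IsNumerator k (L i) (PL i)) ∧
      AllBounded (k := k) ℓ L f (muMod ℓ PK) (∑ i, muMod ℓ (PL i)) ∧
      ((∀ i, ¬ ℓ ∣ S.classNumber k (L i)) → AllBounded (k := k) ℓ L f (muMod ℓ PK) 0) := by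
  have hmain0 : ∃ (PK : ℤ[X]) (PL : ι → ℤ[X]), IsNumerator k K PK ∧
      (∀ i, IsNumerator k (L i) (PL i)) ∧
      AllBounded (k := k) ℓ L f (muMod ℓ PK) (∑ i, muMod ℓ (PL i)) := by
    exact main0 ℓ k K hq hK f ι L θ hθ
  obtain ⟨PK, PL, h1, h2, h3⟩ := hmain0
  refine ⟨PK, PL, h1, h2, h3, fun hodd => ?_⟩
  have h4 : ∑ i, muMod ℓ (PL i) = 0 := Finset.sum_eq_zero fun i _ =>
    muMod_unit (h2 i).2 (hodd i)
  rwa [h4] at h3

end Pool.Agent.Results.MP_9faec4_nt.SuperellipticLAdicBounds
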